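import Pool.Agent.helper95.T5.SpecE

/-!
# T5, row RelSum: the exponent bound used in TW
-/

set_option autoImplicit false

namespace Pool.Agent.T5

open Finset NumberField Pool.Agent.helper3.FT Pool.Agent.helper47.RA

theorem RelSum (δ : ℝ) (hδ : 0 < δ) (hδ1 : δ ≤ 1 / 10) : RelSum_stmt δ := by
  refine ⟨(2 : ℝ) ^ (25 / δ), ?_⟩
  intro N Y hN hY1 hY2
  have hN2 : (2 : ℝ) ≤ N := by
    refine le_trans ?_ hN
    have h1 : (2 : ℝ) ^ (1 : ℝ) ≤ 2 ^ (25 / δ) := by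
      apply Real.rpow_le_rpow_of_exponent_le (by norm_num)
      rw [le_div_iff₀ hδ]
      linarith
    simpa using h1
  have hN0 : 0 < N := by linarith
  have hN1 : 1 < N := by linarith
  have hY0 : 0 < Y := lt_of_lt_of_le (Real.rpow_pos_of_pos hN0 _) hY1
  obtain ⟨θ, rfl⟩ : ∃ θ : ℝ, Y = N ^ θ := ⟨Real.logb N Y, (Real.rpow_logb hN0 (by linarith) hY0).symm⟩
  rw [Real.rpow_le_rpow_left_iff hN1] at hY1 hY2
  -- the constant 2
  have hc : (2 : ℝ) ≤ N ^ (δ / 25) := by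
    have h1 : ((2 : ℝ) ^ (25 / δ)) ^ (δ / 25) ≤ N ^ (δ / 25) :=
      Real.rpow_le_rpow (by positivity) hN (by positivity)
    rw [← Real.rpow_mul (by norm_num)] at h1
    have h2 : 25 / δ * (δ / 25) = 1 := by field_simp
    rw [h2, Real.rpow_one] at h1
    exact h1
  unfold relE
  have e1 : N ^ (1 / 2 + δ / 100) / N ^ θ = N ^ (1 / 2 + δ / 100 - θ) := by
    rw [Real.rpow_sub hN0]
  have e2 : N ^ θ * N ^ (1 / 2 + δ / 100) / N = N ^ (θ + (1 / 2 + δ / 100) - 1) := by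
    rw [← Real.rpow_add hN0, Real.rpow_sub hN0, Real.rpow_one]
  have e3 : (N ^ (θ + (1 / 2 + δ / 100) - 1)) ^ (3 / 2 : ℝ) = N ^ ((θ + (1 / 2 + δ / 100) - 1) * (3 / 2)) := by
    rw [← Real.rpow_mul hN0.le]
  have e4 : N ^ (1 / 2 + δ / 100 - θ) * N ^ (θ + (1 / 2 + δ / 100) - 1) = N ^ (δ / 50) := by
    rw [← Real.rpow_add hN0]
    congr 1
    ring
  have e5 : √(N ^ (δ / 50)) = N ^ (δ / 100) := by
    rw [Real.sqrt_eq_rpow, ← Real.rpow_mul hN0.le]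
    congr 1
    ring
  have e6 : N / (N ^ θ) ^ (5 / 2 : ℝ) = N ^ (1 - θ * (5 / 2)) := by
    rw [Real.rpow_sub hN0, Real.rpow_one, ← Real.rpow_mul hN0.le]
  have e7 : √(max 1 (N ^ (1 - θ * (5 / 2)))) ≤ N ^ (max 0 (1 - θ * (5 / 2)) / 2) := by
    have h1 : max 1 (N ^ (1 - θ * (5 / 2))) ≤ N ^ (max 0 (1 - θ * (5 / 2))) := by
      apply max_le
      · exact Real.one_le_rpow hN1.le (le_max_left _ _)
      · exact Real.rpow_le_rpow_of_exponent_le hN1.le (le_max_right _ _)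
    calc √(max 1 (N ^ (1 - θ * (5 / 2)))) ≤ √(N ^ (max 0 (1 - θ * (5 / 2)))) := Real.sqrt_le_sqrt h1
      _ = N ^ (max 0 (1 - θ * (5 / 2)) / 2) := by
        rw [Real.sqrt_eq_rpow, ← Real.rpow_mul hN0.le]
        congr 1
        ring
  have e8 : 1 + N ^ (δ / 100) ≤ N ^ (δ / 25) * N ^ (δ / 100) := by
    have h1 : 1 ≤ N ^ (δ / 100) := Real.one_le_rpow hN1.le (by positivity)
    nlinarith [hc]
  rw [e1, e2, e3, e4, e5, e6]
  have hex : (1 / 2 + δ / 100 - θ) + (δ / 100 + max 0 (1 - θ * (5 / 2)) / 2 +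
      (θ + (1 / 2 + δ / 100) - 1) * (3 / 2) + (δ / 25 + δ / 100)) ≤ -(δ / 3) := by
    rcases le_total 0 (1 - θ * (5 / 2)) with h | h
    · rw [max_eq_right h]
      norm_num at hY1
      linarith
    · rw [max_eq_left h]
      linarith
  calc N ^ (1 / 2 + δ / 100 - θ) * (N ^ (δ / 100) * √(max 1 (N ^ (1 - θ * (5 / 2)))) *
        N ^ ((θ + (1 / 2 + δ / 100) - 1) * (3 / 2)) * (1 + N ^ (δ / 100)))
      ≤ N ^ (1 / 2 + δ / 100 - θ) * (N ^ (δ / 100) * N ^ (max 0 (1 - θ * (5 / 2)) / 2) *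
        N ^ ((θ + (1 / 2 + δ / 100) - 1) * (3 / 2)) * (N ^ (δ / 25) * N ^ (δ / 100))) := by
        gcongr
    _ = N ^ ((1 / 2 + δ / 100 - θ) + (δ / 100 + max 0 (1 - θ * (5 / 2)) / 2 +
      (θ + (1 / 2 + δ / 100) - 1) * (3 / 2) + (δ / 25 + δ / 100))) := by
        rw [Real.rpow_add hN0 (1 / 2 + δ / 100 - θ), Real.rpow_add hN0 (δ / 100 + max 0 (1 - θ * (5 / 2)) / 2 +
          (θ + (1 / 2 + δ / 100) - 1) * (3 / 2)), Real.rpow_add hN0 (δ / 100 + max 0 (1 - θ * (5 / 2)) / 2),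
          Real.rpow_add hN0 (δ / 100), Real.rpow_add hN0 (δ / 25)]
    _ ≤ N ^ (-(δ / 3)) := Real.rpow_le_rpow_of_exponent_le hN1.le hex

end Pool.Agent.T5
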