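import Pool.Agent.helper3.T5.SpecA

set_option autoImplicit false

/-!
# T5 (MP_16912e_nt), row AFPW: the local weights of tuples and of ideals agree
-/

namespace Pool.Agent.T5

open Finset NumberField Pool.Agent.helper3.FT Pool.Agent.helper47.RA

theorem AFPW (hALC1 : ALC1_stmt) (hALC2 : ALC2_stmt) (hAPFU : APFU_stmt) : AFPW_stmt := by
  classical
  intro K _ _ Q a α γ d t h
  have key : ∀ p : ℕ, p.Prime → ¬ p ∣ d → fp p t = wf Q p a α := by
    intro p hp hpd
    have hpi : Prime (p : ℤ) := Nat.prime_iff_prime_int.1 hp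
    have hY : (p : ℤ) ∣ Q.Y α ↔ p ∣ t.1.1 := by
      rw [h.n]
      constructor
      · intro h1
        rcases hpi.dvd_or_dvd h1 with h2 | h2
        · exact absurd (by exact_mod_cast h2) hpd
        · exact_mod_cast h2
      · intro h1
        exact Dvd.dvd.mul_left (by exact_mod_cast h1) _
    have hZ : p ∣ Ideal.absNorm a ↔ (p : ℤ) ∣ t.2.2.2 := by
      rw [h.z]; exact Int.natCast_dvd_natCast.symm
    have hL : p ∣ lamI a α ↔ (p : ℤ) ∣ lam t := by
      rw [h.l]; exact Int.natCast_dvd_natCast.symm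
    unfold fp wf
    by_cases hn : p ∣ t.1.1
    · rw [if_pos hn]
      have h2 := hALC2 K Q a α γ d t p h hp hpd hn
      have halw : alw Q p a α ↔ ((p : ℤ) ∣ t.2.2.2 ∧ (p : ℤ) ∣ Q.D ∧ ¬ (p : ℤ) ∣ lam t) := by
        unfold alw
        rw [hY, hZ, hL]
        constructor
        · rintro (h3 | h3)
          · exact absurd hn h3.1
          · exact h3
        · intro h3
          exact Or.inr h3
      by_cases hc : ¬ p ∣ t.1.2 ∧ ¬ (p : ℤ) ∣ t.2.2.1 ∧ (p : ℤ) ∣ t.2.1 ∧ ¬ (p : ℤ) ^ 2 ∣ t.2.1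
      · have h3 := h2.2 hc
        rw [if_pos hc, if_pos (halw.2 h3), if_neg (fun h4 => h4.2 h3.2.1)]
      · rw [if_neg hc, if_neg (fun h4 => hc (h2.1 (halw.1 h4)))]
    · rw [if_neg hn]
      have h1 : (p : ℤ) ∣ t.2.2.2 → ¬ (p : ℤ) ∣ Q.D := hALC1 K Q a α γ d t p h hp hpd hn
      have hpf : Pfund p (dis t) := by
        rw [h.D]; exact hAPFU Q.D d p Q.hD hp hpd
      have halw : alw Q p a α ↔ ¬ ((p : ℤ) ∣ t.2.2.2 ∧ (p : ℤ) ∣ lam t) := by
        unfold alw
        rw [hY, hZ, hL]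
        constructor
        · rintro (h3 | h3)
          · exact h3.2
          · exact absurd h3.2.1 (h1 h3.1)
        · intro h3
          exact Or.inl ⟨hn, h3⟩
      by_cases hc : (p : ℤ) ∣ t.2.2.2 ∧ (p : ℤ) ∣ lam t
      · rw [if_pos (Or.inl hc), if_neg (fun h4 => (halw.1 h4) hc)]
      · rw [if_neg (fun h4 => h4.elim hc (fun h5 => h5 hpf)), if_pos (halw.2 hc)]
        by_cases hz : (p : ℤ) ∣ t.2.2.2
        · rw [if_pos hz, if_pos ⟨hZ.2 hz, h1 hz⟩]
        · rw [if_neg hz, if_neg (fun h4 => hz (hZ.1 h4.1))]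
  refine ⟨key, fun w hw => ?_⟩
  unfold fw wt
  refine Finset.prod_congr rfl fun p hp => ?_
  have hpp : p.Prime := (Finset.mem_filter.1 hp).2
  exact key p hpp (hw p hp)

end Pool.Agent.T5
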