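import Pool.Agent.helper3.T5.SpecA

set_option autoImplicit false

/-!
# T5 (MP_16912e_nt), row ASQF: `(p)` is a radical ideal for `p` not dividing `D`
-/

namespace Pool.Agent.T5

open Finset NumberField Pool.Agent.helper3.FT Pool.Agent.helper47.RA

theorem ASQF_two {K : Type} [Field K] [NumberField K] (Q : QF K) (p : ℕ) (hp : p.Prime) (hD : ¬ (p : ℤ) ∣ Q.D)
    (x : 𝓞 K) (h : (p : 𝓞 K) ∣ x ^ 2) : (p : 𝓞 K) ∣ x := by
  have hpi : Prime (p : ℤ) := Nat.prime_iff_prime_int.1 hp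
  obtain ⟨N, hN, -⟩ := Q.exists_norm x
  obtain ⟨T, hT, -⟩ := Q.exists_trace x
  obtain ⟨y, hy⟩ := h
  obtain ⟨M, hM, -⟩ := Q.exists_norm y
  have hpN : (p : ℤ) ∣ N := by
    have h1 : ((N ^ 2 : ℤ) : 𝓞 K) = (((p : ℤ) ^ 2 * M : ℤ) : 𝓞 K) := by
      have h2 : Q.cj (x ^ 2) = Q.cj ((p : 𝓞 K) * y) := by rw [hy]
      rw [map_pow, map_mul, map_natCast] at h2
      push_cast
      rw [← hN, ← hM]
      calc (x * Q.cj x) ^ 2 = x ^ 2 * (Q.cj x) ^ 2 := by ring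
        _ = ((p : 𝓞 K) * y) * ((p : 𝓞 K) * Q.cj y) := by rw [hy, h2]
        _ = (p : 𝓞 K) ^ 2 * (y * Q.cj y) := by ring
    have h2 : N ^ 2 = (p : ℤ) ^ 2 * M := by exact_mod_cast h1
    have h3 : (p : ℤ) ∣ N ^ 2 := by
      rw [h2]
      exact Dvd.dvd.mul_right (dvd_pow_self _ two_ne_zero) _
    exact hpi.dvd_of_dvd_pow h3
  by_cases hpT : (p : ℤ) ∣ T
  · refine Q.dvd_of_dvd p hp x N hN ?_ hpN
    have h1 : ((T ^ 2 : ℤ) : 𝓞 K) = ((Q.D * Q.Y x ^ 2 + 4 * N : ℤ) : 𝓞 K) := by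
      have e1 := Q.sub_cj x
      have e2 := Q.delta_sq
      push_cast
      rw [← hT, ← hN, ← e2]
      linear_combination (x - Q.cj x + (Q.Y x : 𝓞 K) * (2 * Q.ω - Q.t)) * e1
    have h2 : T ^ 2 = Q.D * Q.Y x ^ 2 + 4 * N := by exact_mod_cast h1
    have h3 : (p : ℤ) ∣ Q.D * Q.Y x ^ 2 := by
      have h4 : Q.D * Q.Y x ^ 2 = T ^ 2 - 4 * N := by rw [h2]; ring
      rw [h4]
      exact dvd_sub (Dvd.dvd.pow hpT two_ne_zero) (Dvd.dvd.mul_left hpN _)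
    rcases hpi.dvd_or_dvd h3 with h4 | h4
    · exact absurd h4 hD
    · exact hpi.dvd_of_dvd_pow h4
  · obtain ⟨a, b, hab⟩ := (Prime.coprime_iff_not_dvd hpi).2 hpT
    obtain ⟨c, hc⟩ := hpN
    have h1 : (a : 𝓞 K) * (p : 𝓞 K) + (b : 𝓞 K) * (T : 𝓞 K) = 1 := by exact_mod_cast congrArg (Int.cast : ℤ → 𝓞 K) hab
    have h2 : (T : 𝓞 K) * x = (p : 𝓞 K) * (y + c) := by
      have h3 : (N : 𝓞 K) = (p : 𝓞 K) * (c : 𝓞 K) := by exact_mod_cast congrArg (Int.cast : ℤ → 𝓞 K) hc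
      rw [← hT]
      calc (x + Q.cj x) * x = x ^ 2 + x * Q.cj x := by ring
        _ = (p : 𝓞 K) * y + (p : 𝓞 K) * (c : 𝓞 K) := by rw [hN, hy, h3]
        _ = (p : 𝓞 K) * (y + c) := by ring
    refine ⟨(a : 𝓞 K) * x + (b : 𝓞 K) * (y + c), ?_⟩
    calc x = ((a : 𝓞 K) * (p : 𝓞 K) + (b : 𝓞 K) * (T : 𝓞 K)) * x := by rw [h1, one_mul]
      _ = (a : 𝓞 K) * (p : 𝓞 K) * x + (b : 𝓞 K) * ((T : 𝓞 K) * x) := by ring
      _ = (p : 𝓞 K) * ((a : 𝓞 K) * x + (b : 𝓞 K) * (y + c)) := by rw [h2]; ring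

theorem ASQF_pow {K : Type} [Field K] [NumberField K] (Q : QF K) (p : ℕ) (hp : p.Prime) (hD : ¬ (p : ℤ) ∣ Q.D)
    (x : 𝓞 K) (i : ℕ) (h : (p : 𝓞 K) ∣ x ^ 2 ^ i) : (p : 𝓞 K) ∣ x := by
  induction i with
  | zero => simpa using h
  | succ i ih =>
    refine ih (ASQF_two Q p hp hD _ ?_)
    rw [← pow_mul, ← pow_succ]
    exact h

theorem ASQF : ASQF_stmt := by
  intro K _ _ Q p j hp hD hj
  have key : ∀ x : 𝓞 K, (p : 𝓞 K) ∣ x ^ j → (p : 𝓞 K) ∣ x := by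
    intro x hx
    exact ASQF_pow Q p hp hD x j (hx.trans (pow_dvd_pow x (Nat.lt_two_pow_self).le))
  refine ⟨key, fun I hI => ?_⟩
  rw [Ideal.dvd_iff_le] at hI ⊢
  intro x hx
  rw [Ideal.mem_span_singleton]
  exact key x (Ideal.mem_span_singleton.1 (hI (Ideal.pow_mem_pow hx j)))

end Pool.Agent.T5
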