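import Pool.Agent.helper26.T5.SpecB
import Pool.Agent.helper47.RA.Num

set_option autoImplicit false

/-!
# T5 (MP_16912e_nt), row LFB
-/

namespace Pool.Agent.helper26.T5

open NumberField Pool.Agent.helper3.FT Pool.Agent.helper47.RA Pool.Agent.T5

variable {K : Type} [Field K] [NumberField K]

theorem lfb_Y_zero (Q : QF K) : Q.Y 0 = 0 := by
  have h := Q.Y_int_mul 0 0
  simpa using h

theorem lfb_Y_neg (Q : QF K) (x : 𝓞 K) : Q.Y (-x) = - Q.Y x := by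
  have h := Q.Y_int_mul (-1) x
  simpa using h

/-- the numerical part -/
theorem lfb_num (d C₁ ε : ℝ) (hd : 0 < d) (hC : 1 ≤ C₁) (hε : 0 < ε) : ∃ N₀ : ℝ, 10 ≤ N₀ ∧ ∀ N : ℝ, N₀ ≤ N →
    N ^ (3 * d / 4) + N ^ (d / 100) + 8 * C₁ * N ^ (d - d / 200) ≤ ε * N ^ d := by
  refine ⟨max 10 (((2 + 8 * C₁) / ε) ^ (200 / d)), le_max_left _ _, fun N hN => ?_⟩
  have h10 : (10 : ℝ) ≤ N := (le_max_left _ _).trans hN
  have hN2 : ((2 + 8 * C₁) / ε) ^ (200 / d) ≤ N := (le_max_right _ _).trans hN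
  have hN0 : (0 : ℝ) < N := by linarith
  have hN1 : (1 : ℝ) ≤ N := by linarith
  have hb : 0 ≤ (2 + 8 * C₁) / ε := by positivity
  have h1 : (2 + 8 * C₁) / ε ≤ N ^ (d / 200) := by
    have h2 := Real.rpow_le_rpow (by positivity) hN2 (by positivity : (0 : ℝ) ≤ d / 200)
    rw [← Real.rpow_mul hb] at h2
    have e : 200 / d * (d / 200) = 1 := by field_simp
    rwa [e, Real.rpow_one] at h2
  rw [div_le_iff₀ hε] at h1
  have e1 : N ^ (3 * d / 4) ≤ N ^ (d - d / 200) := Real.rpow_le_rpow_of_exponent_le hN1 (by linarith)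
  have e2 : N ^ (d / 100) ≤ N ^ (d - d / 200) := Real.rpow_le_rpow_of_exponent_le hN1 (by linarith)
  have e3 : N ^ (d - d / 200) * N ^ (d / 200) = N ^ d := by
    rw [← Real.rpow_add hN0]; congr 1; ring
  have e4 : 0 ≤ N ^ (d - d / 200) := Real.rpow_nonneg hN0.le _
  calc N ^ (3 * d / 4) + N ^ (d / 100) + 8 * C₁ * N ^ (d - d / 200)
      ≤ (2 + 8 * C₁) * N ^ (d - d / 200) := by linarith
    _ ≤ (N ^ (d / 200) * ε) * N ^ (d - d / 200) := mul_le_mul_of_nonneg_right h1 e4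
    _ = ε * N ^ d := by rw [← e3]; ring

theorem lfb (hI : LI) (hII : LII) (hIII : LIII) (hYT : LYT) (hRD : LRD) (hFU : LFU) (_hAW : LAW) (_hEMB : LEMB) :
    LFB := by
  classical
  intro d hd
  obtain ⟨C₁, hC₁, hdiv⟩ := card_divisors_le (d / 600) (by positivity)
  refine ⟨13, by norm_num, fun w hw ε hε => ?_⟩
  obtain ⟨N₀, hN₀, hnum⟩ := lfb_num d C₁ ε hd hC₁ hε
  refine ⟨N₀, ?_⟩
  intro K _ _ Q N Y a hfin hN hD1 hD2 hY hIA hEX F hF
  have hN10 : (10 : ℝ) ≤ N := hN₀.trans hN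
  have hN0 : (0 : ℝ) < N := by linarith
  have hN1 : (1 : ℝ) ≤ N := by linarith
  have hDr : (Q.D : ℝ) < -4 := by linarith
  have hD4 : Q.D < -4 := by exact_mod_cast hDr
  have hD0 : Q.D < 0 := by omega
  have hDr0 : (Q.D : ℝ) < 0 := by linarith
  have habs : |(Q.D : ℝ)| = -(Q.D : ℝ) := abs_of_neg hDr0
  have hDpos : (0 : ℝ) < -(Q.D : ℝ) := by linarith
  have hs : (0 : ℝ) < √(-(Q.D : ℝ)) := Real.sqrt_pos.2 hDpos
  obtain ⟨hbot, hprim, hprin, hnp, hZ1, hZ2⟩ := hIA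
  obtain ⟨θ, hθ⟩ := hprin.principal
  have hθ' : Ideal.span {θ} = a ^ 5 := hθ.symm
  obtain ⟨hYθ, hYθ2, hθu⟩ := hYT K Q a θ hD4 hbot hθ' hnp
  set T : ℝ := N ^ d * √(-(Q.D : ℝ)) with hT
  set H : ℝ := N ^ (d / 100) with hH
  set ℓ : ℝ := N ^ (1 / 2 - d / 2) with hℓ
  have hNd : 0 < N ^ d := Real.rpow_pos_of_pos hN0 _
  have hT0 : 0 < T := mul_pos hNd hs
  have hℓ0 : 0 < ℓ := Real.rpow_pos_of_pos hN0 _
  have hH1 : 1 ≤ H := Real.one_le_rpow hN1 (by positivity)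
  have hH0 : 0 < H := by linarith
  have hTs : T / √|(Q.D : ℝ)| = N ^ d := by
    rw [habs, hT]; field_simp
  have hNE : NE Q a ℓ := by
    intro α hα hα0
    by_contra hcon
    exact hEX ⟨⟨hbot, hprim, hprin, hnp, hZ1, hZ2⟩, α, hα, hα0, not_lt.1 hcon⟩
  have hw0 : (0 : ℝ) < w := by
    have : 0 < w := by omega
    exact_mod_cast this
  -- change of sign of gamma
  have hgam : ∀ α ∈ F, ∃ γ : 𝓞 K, γ * θ = Ideal.absNorm a * α ^ 2 ∧
      ((∃ p : ℕ, p.Prime ∧ w < p ∧ Ideal.span {(p : 𝓞 K)} * a ^ 2 ∣ Ideal.span {α}) ∨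
         (∃ p : ℕ, p.Prime ∧ w < p ∧ (p : ℤ) ^ 2 ∣ Q.Y α ∧ (p : ℤ) ∣ Q.Y γ) ∨
         H < (gd Q α γ : ℝ)) := by
    intro α hα
    obtain ⟨-, -, γ, ⟨θ₁, hθ₁, hγ⟩, -, hor⟩ := hF α hα
    rcases hθu θ₁ hθ₁.symm with h | h
    · subst h
      exact ⟨γ, hγ, hor⟩
    · subst h
      refine ⟨-γ, ?_, ?_⟩
      · rw [← hγ]; ring
      · rw [lfb_Y_neg]
        have hg : gd Q α (-γ) = gd Q α γ := by
          unfold gd; rw [lfb_Y_neg, Int.gcd_neg]
        rw [hg]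
        rcases hor with h1 | ⟨p, h1, h2, h3, h4⟩ | h1
        · exact Or.inl h1
        · exact Or.inr (Or.inl ⟨p, h1, h2, h3, (dvd_neg).2 h4⟩)
        · exact Or.inr (Or.inr h1)
  have hα0 : ∀ α ∈ F, α ≠ 0 := by
    intro α hα h0
    have h1 := (hF α hα).1.2.1
    rw [h0, lfb_Y_zero] at h1
    exact lt_irrefl _ h1
  set S1 : Finset (𝓞 K) := F.filter (fun α => ¬ Cont1 a α) with hS1
  set S2 : Finset (𝓞 K) := F.filter (fun α => Cont1 a α ∧
    ∃ p : ℕ, p.Prime ∧ w < p ∧ (p : ℝ) ≤ H ∧ ¬ p ∣ Ideal.absNorm a ∧ (p : ℤ) ^ 2 ∣ Q.Y α) with hS2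
  set S3 : Finset (𝓞 K) := F.filter (fun α => Cont1 a α ∧
    ∃ γ : 𝓞 K, γ * θ = Ideal.absNorm a * α ^ 2 ∧ H < (gd Q α γ : ℝ)) with hS3
  have hcov : F ⊆ S1 ∪ (S2 ∪ S3) := by
    intro α hα
    by_cases hc : Cont1 a α
    · obtain ⟨γ, hγ, hor⟩ := hgam α hα
      by_cases hg : H < (gd Q α γ : ℝ)
      · refine Finset.mem_union_right _ (Finset.mem_union_right _ ?_)
        exact Finset.mem_filter.2 ⟨hα, hc, γ, hγ, hg⟩
      · rcases hor with ⟨p, hp, -, h1⟩ | ⟨p, hp, hwp, h1, h2⟩ | h1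
        · exact absurd h1 (hc p hp)
        · refine Finset.mem_union_right _ (Finset.mem_union_left _ ?_)
          have hYα : 0 < Q.Y α := (hF α hα).1.2.1
          have hpα : (p : ℤ) ∣ Q.Y α := (dvd_pow_self _ two_ne_zero).trans h1
          have hpg : p ∣ gd Q α γ := by
            have := Int.dvd_coe_gcd hpα h2
            exact_mod_cast this
          have hgpos : 0 < gd Q α γ := Int.gcd_pos_of_ne_zero_left _ hYα.ne'
          have hple : (p : ℝ) ≤ H := by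
            have h3 : (p : ℝ) ≤ (gd Q α γ : ℝ) := by exact_mod_cast Nat.le_of_dvd hgpos hpg
            exact h3.trans (not_lt.1 hg)
          refine Finset.mem_filter.2 ⟨hα, hc, p, hp, hwp, hple, ?_, h1⟩
          intro hpZ
          obtain ⟨Fu, f1, f2, f3, -, -, -, -⟩ := hFU K Q a θ α γ hD0 hprim hbot hθ' (hα0 α hα)
            (hF α hα).1.1 hc hγ
          have hne : Q.Y Fu.β ≠ 0 := by rw [f2]; exact hYα.ne'
          obtain ⟨e, he⟩ := Nat.gcd_dvd_left (gd Q Fu.β Fu.γ) (Ideal.absNorm Fu.a)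
          obtain ⟨-, -, h5⟩ := hRD K Q Fu hne _ e rfl he
          have hpr : p ∣ Nat.gcd (gd Q Fu.β Fu.γ) (Ideal.absNorm Fu.a) := by
            rw [f1, f2, f3]
            exact Nat.dvd_gcd hpg hpZ
          have h6 := (h5 p hp hpr).2.2
          rw [f2] at h6
          exact h6 h1
        · exact absurd h1 hg
    · exact Finset.mem_union_left _ (Finset.mem_filter.2 ⟨hα, hc⟩)
  have b1 : (S1.card : ℝ) ≤ √(T / ℓ) + 2 * Real.pi * T / (w * √|(Q.D : ℝ)|) := by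
    refine hI K Q a w ℓ T hD0 hprim hbot (by omega) hℓ0 hT0 hNE S1 fun α hα => ?_
    obtain ⟨h1, h2⟩ := Finset.mem_filter.1 hα
    exact ⟨(hF α h1).1, (hF α h1).2.1, h2⟩
  have b2 : (S2.card : ℝ) ≤ H + 2 * Real.pi * T / (w * √|(Q.D : ℝ)|) := by
    refine hII K Q a w H T hD0 hbot (by omega) hH1 hT0 S2 fun α hα => ?_
    obtain ⟨h1, h2, h3⟩ := Finset.mem_filter.1 hα
    exact ⟨(hF α h1).1, h2, h3⟩
  have b3 : (S3.card : ℝ) ≤ ((Q.Y θ).natAbs.divisors.card : ℝ) *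
      (1 + 2 * Real.pi * T / (H * √|(Q.D : ℝ)|)) := by
    refine hIII K Q a θ w H T hD0 hprim hbot hθ' hYθ hw hH1 hT0 S3 fun α hα => ?_
    obtain ⟨h1, h2, h3⟩ := Finset.mem_filter.1 hα
    exact ⟨(hF α h1).1, h2, (hF α h1).2.1, h3⟩
  have hcard : (F.card : ℝ) ≤ S1.card + (S2.card + S3.card) := by
    have h1 := (Finset.card_le_card hcov).trans (Finset.card_union_le _ _)
    have h2 := Finset.card_union_le S2 S3
    have h3 : F.card ≤ S1.card + (S2.card + S3.card) := by omega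
    exact_mod_cast h3
  have hmain : 2 * Real.pi * T / (w * √|(Q.D : ℝ)|) = 2 * Real.pi / w * N ^ d := by
    rw [← hTs]; field_simp
  have hmain2 : 2 * Real.pi * T / (H * √|(Q.D : ℝ)|) = 2 * Real.pi / H * N ^ d := by
    rw [← hTs]; field_simp
  rw [hmain] at b1 b2
  rw [hmain2] at b3
  -- the square root
  have hsq : √(T / ℓ) ≤ N ^ (3 * d / 4) := by
    have h1 : T / ℓ ≤ N ^ (3 * d / 2) := by
      rw [div_le_iff₀ hℓ0, hT, hℓ, ← Real.rpow_add hN0]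
      have h2 : √(-(Q.D : ℝ)) ≤ N ^ (1 / 2 : ℝ) := by
        rw [← Real.sqrt_eq_rpow]
        exact Real.sqrt_le_sqrt hD2
      calc N ^ d * √(-(Q.D : ℝ)) ≤ N ^ d * N ^ (1 / 2 : ℝ) := mul_le_mul_of_nonneg_left h2 hNd.le
        _ = N ^ (3 * d / 2 + (1 / 2 - d / 2)) := by
            rw [← Real.rpow_add hN0]; congr 1; ring
    calc √(T / ℓ) ≤ √(N ^ (3 * d / 2)) := Real.sqrt_le_sqrt h1
      _ = N ^ (3 * d / 4) := by
          rw [Real.sqrt_eq_rpow, ← Real.rpow_mul hN0.le]; congr 1; ring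
  -- divisors
  have hdv : ((Q.Y θ).natAbs.divisors.card : ℝ) ≤ C₁ * N ^ (d / 200) := by
    have hpos : 0 < (Q.Y θ).natAbs := Int.natAbs_pos.2 hYθ
    refine (hdiv _ hpos).trans ?_
    refine mul_le_mul_of_nonneg_left ?_ (by linarith)
    have h1 : ((Q.Y θ).natAbs : ℝ) ≤ N ^ (3 : ℝ) := by
      have h2 : ((Q.Y θ).natAbs : ℝ) ^ 2 ≤ (N ^ (3 : ℝ)) ^ 2 := by
        have h3 : ((Q.Y θ).natAbs : ℝ) ^ 2 = (Q.Y θ : ℝ) ^ 2 := by
          rw [Nat.cast_natAbs, Int.cast_abs, sq_abs]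
        rw [h3]
        have h4 : (Q.Y θ : ℝ) ^ 2 ≤ 4 * (Ideal.absNorm a : ℝ) ^ 5 := by
          refine le_trans ?_ hYθ2
          rw [habs]
          have : (1 : ℝ) ≤ -(Q.D : ℝ) := by linarith
          nlinarith [sq_nonneg (Q.Y θ : ℝ)]
        have h5 : (Ideal.absNorm a : ℝ) ^ 5 ≤ N ^ 5 :=
          pow_le_pow_left₀ (Nat.cast_nonneg _) (hZ2.trans hY) 5
        have h6 : (N ^ (3 : ℝ)) ^ 2 = N ^ 5 * N := by
          have : N ^ (3 : ℝ) = N ^ (3 : ℕ) := by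
            rw [← Real.rpow_natCast]; norm_num
          rw [this]; ring
        rw [h6]
        have h7 : (0 : ℝ) < N ^ 5 := by positivity
        have h8 : N ^ 5 * 10 ≤ N ^ 5 * N := mul_le_mul_of_nonneg_left hN10 h7.le
        linarith
      exact le_of_sq_le_sq h2 (by positivity)
    calc ((Q.Y θ).natAbs : ℝ) ^ (d / 600) ≤ (N ^ (3 : ℝ)) ^ (d / 600) :=
          Real.rpow_le_rpow (Nat.cast_nonneg _) h1 (by positivity)
      _ = N ^ (d / 200) := by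
          rw [← Real.rpow_mul hN0.le]; congr 1; ring
  have hbr : 1 + 2 * Real.pi / H * N ^ d ≤ 8 * N ^ (d - d / 100) := by
    have h1 : N ^ d = H * N ^ (d - d / 100) := by
      rw [hH, ← Real.rpow_add hN0]; congr 1; ring
    have h2 : (1 : ℝ) ≤ N ^ (d - d / 100) := Real.one_le_rpow hN1 (by linarith)
    have h3 : 2 * Real.pi / H * N ^ d = 2 * Real.pi * N ^ (d - d / 100) := by
      rw [h1]; field_simp
    rw [h3]
    have h4 : Real.pi < 3.15 := Real.pi_lt_d2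
    nlinarith
  have b3' : (S3.card : ℝ) ≤ 8 * C₁ * N ^ (d - d / 200) := by
    have h1 : (0 : ℝ) ≤ 1 + 2 * Real.pi / H * N ^ d := by positivity
    have h2 : (0 : ℝ) ≤ C₁ * N ^ (d / 200) := by positivity
    calc (S3.card : ℝ) ≤ ((Q.Y θ).natAbs.divisors.card : ℝ) * (1 + 2 * Real.pi / H * N ^ d) := b3
      _ ≤ (C₁ * N ^ (d / 200)) * (8 * N ^ (d - d / 100)) := mul_le_mul hdv hbr h1 h2
      _ = 8 * C₁ * N ^ (d - d / 200) := by
          have : N ^ (d - d / 200) = N ^ (d / 200) * N ^ (d - d / 100) := by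
            rw [← Real.rpow_add hN0]; congr 1; ring
          rw [this]; ring
  have hn := hnum N hN
  have hpi : 4 * Real.pi / w * N ^ d ≤ 13 / w * N ^ d := by
    refine mul_le_mul_of_nonneg_right ?_ hNd.le
    rw [div_le_div_iff_of_pos_right hw0]
    have h4 : Real.pi < 3.15 := Real.pi_lt_d2
    linarith
  have e1 : 2 * Real.pi / w * N ^ d + 2 * Real.pi / w * N ^ d = 4 * Real.pi / w * N ^ d := by ring
  have e2 : (13 / w + ε) * N ^ d = 13 / w * N ^ d + ε * N ^ d := by ring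
  rw [e2]
  linarith

end Pool.Agent.helper26.T5
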